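import Pool.Agent.R703.MO.Class

/-!
# Closed manifolds cut into manifolds with right-angled corners: Euler characteristics

`P` is the finite poset of the faces of the pieces, `dim` the dimension. The faces which contain a
given face `p` correspond to the simplices of the link of `p`.
-/

set_option autoImplicit false

namespace Pool.Agent.Helper10K1.RT

open Pool.Agent.W907.SG

/-- The flag complex of `G` is the link of the face `p`: the faces which contain `p`, ordered by
inclusion, correspond to the cliques of `G` (`p` itself to the empty clique), and the dimension goes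
up by one with each vertex. -/
def IsFaceLink {P : Type} [PartialOrder P] (dim : P → ℕ) (p : P) {V : Type} (G : SimpleGraph V) :
    Prop :=
  ∃ e : {x : P // p ≤ x} ≃ {F : Finset V // G.IsClique (F : Set V)},
    (∀ x y, x.1 ≤ y.1 ↔ (e x).1 ⊆ (e y).1) ∧ ∀ x, dim x.1 = dim p + (e x).1.card

section

variable {P : Type} [Fintype P] [PartialOrder P] {dim : P → ℕ}

open scoped Classical in
/-- the quantity `∑ (-1/2)^|T|` of the link -/
lemma chiW_eq {p : P} {V : Type} [Fintype V] {G : SimpleGraph V} (h : IsFaceLink dim p G) :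
    chiW G = ∑ x ∈ Finset.univ.filter (fun x : P => p ≤ x), (-1 / 2 : ℚ) ^ (dim x - dim p) := by
  obtain ⟨e, he, hd⟩ := h
  unfold chiW
  rw [← Finset.sum_filter]
  symm
  refine Finset.sum_bij' (fun x _ => if hx : p ≤ x then (e ⟨x, hx⟩).1 else ∅)
    (fun T _ => if hT : G.IsClique (T : Set V) then (e.symm ⟨T, hT⟩).1 else p) ?_ ?_ ?_ ?_ ?_
  · intro x hx
    simp only [Finset.mem_filter, Finset.mem_univ, true_and] at hx ⊢
    rw [dif_pos hx]
    exact (e ⟨x, hx⟩).2
  · intro T hT
    simp only [Finset.mem_filter, Finset.mem_univ, true_and] at hT ⊢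
    rw [dif_pos hT]
    exact (e.symm ⟨T, hT⟩).2
  · intro x hx
    simp only [Finset.mem_filter, Finset.mem_univ, true_and] at hx
    simp only [dif_pos hx, dif_pos (e ⟨x, hx⟩).2]
    simp
  · intro T hT
    simp only [Finset.mem_filter, Finset.mem_univ, true_and] at hT
    simp only [dif_pos hT, dif_pos (e.symm ⟨T, hT⟩).2]
    simp
  · intro x hx
    simp only [Finset.mem_filter, Finset.mem_univ, true_and] at hx
    simp only [dif_pos hx]
    have h2 := hd ⟨x, hx⟩
    simp only at h2
    rw [h2, Nat.add_sub_cancel_left]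

open scoped Classical in
/-- sums over intervals -/
lemma interval {q x : P} {V : Type} {G : SimpleGraph V} (h : IsFaceLink dim q G)
    (hqx : q ≤ x) (c d : ℚ) :
    ∑ p ∈ Finset.univ.filter (fun p : P => q ≤ p ∧ p ≤ x), c ^ (dim p - dim q) * d ^ (dim x - dim p) =
      (c + d) ^ (dim x - dim q) := by
  obtain ⟨e, he, hd⟩ := h
  obtain ⟨F, hF⟩ : ∃ F, F = (e ⟨x, hqx⟩).1 := ⟨_, rfl⟩
  have hFc : G.IsClique (F : Set V) := by rw [hF]; exact (e ⟨x, hqx⟩).2
  have hx := hd ⟨x, hqx⟩
  simp only at hx
  rw [← hF] at hx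
  have h1 : dim x - dim q = F.card := by omega
  rw [h1, Finset.sum_pow_mul_eq_add_pow c d F |>.symm]
  refine Finset.sum_bij' (fun p _ => if hp : q ≤ p then (e ⟨p, hp⟩).1 else ∅)
    (fun T _ => if hT : G.IsClique (T : Set V) then (e.symm ⟨T, hT⟩).1 else q) ?_ ?_ ?_ ?_ ?_
  · intro p hp
    simp only [Finset.mem_filter, Finset.mem_univ, true_and] at hp
    rw [dif_pos hp.1, Finset.mem_powerset, hF]
    exact (he ⟨p, hp.1⟩ ⟨x, hqx⟩).1 hp.2
  · intro T hT
    rw [Finset.mem_powerset] at hT
    have hTc : G.IsClique (T : Set V) := hFc.subset (Finset.coe_subset.2 hT)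
    rw [dif_pos hTc]
    simp only [Finset.mem_filter, Finset.mem_univ, true_and]
    refine ⟨(e.symm ⟨T, hTc⟩).2, ?_⟩
    rw [he _ ⟨x, hqx⟩, Equiv.apply_symm_apply, ← hF]
    exact hT
  · intro p hp
    simp only [Finset.mem_filter, Finset.mem_univ, true_and] at hp
    simp only [dif_pos hp.1, dif_pos (e ⟨p, hp.1⟩).2]
    simp
  · intro T hT
    rw [Finset.mem_powerset] at hT
    have hTc : G.IsClique (T : Set V) := hFc.subset (Finset.coe_subset.2 hT)
    simp only [dif_pos hTc, dif_pos (e.symm ⟨T, hTc⟩).2]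
    simp
  · intro p hp
    simp only [Finset.mem_filter, Finset.mem_univ, true_and] at hp
    simp only [dif_pos hp.1]
    have h2 := hd ⟨p, hp.1⟩
    simp only at h2
    have h3 : dim x - dim p = F.card - (e ⟨p, hp.1⟩).1.card := by omega
    rw [h3, h2, Nat.add_sub_cancel_left]

omit [Fintype P] in
/-- the dimension is monotone -/
lemma dim_le {q x : P} {V : Type} {G : SimpleGraph V} (h : IsFaceLink dim q G) (hqx : q ≤ x) :
    dim q ≤ dim x := by
  obtain ⟨e, he, hd⟩ := h
  have := hd ⟨x, hqx⟩
  simp only at this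
  omega

omit [Fintype P] in
/-- the dimension is strictly monotone -/
lemma eq_of_dim {q x : P} {V : Type} {G : SimpleGraph V} (h : IsFaceLink dim q G) (hqx : q ≤ x)
    (hdim : dim x = dim q) : x = q := by
  obtain ⟨e, he, hd⟩ := h
  have h1 := hd ⟨x, hqx⟩
  simp only at h1
  have h2 : (e ⟨x, hqx⟩).1 = ∅ := Finset.card_eq_zero.1 (by omega)
  have h3 : (⟨x, hqx⟩ : {x : P // q ≤ x}).1 ≤ (⟨q, le_refl q⟩ : {x : P // q ≤ x}).1 := by
    rw [he, h2]
    exact Finset.empty_subset _
  exact le_antisymm h3 hqx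

open scoped Classical in
/-- The Euler characteristic of the orbifold which is the face `p` with its facets as mirrors: a
face of codimension `c` of `p` has weight `2^(-c)`. `X q` is the Euler characteristic of the closed
face `q`, so that `(-1)^(dim q) X q` is the one of the open face with compact supports. -/
noncomputable def orb (dim : P → ℕ) (X : P → ℤ) (p : P) : ℚ :=
  ∑ q ∈ Finset.univ.filter (fun q : P => q ≤ p),
    (1 / 2 : ℚ) ^ (dim p - dim q) * ((-1 : ℚ) ^ dim q * X q)

open scoped Classical in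
/-- interchange of the summations -/
lemma sum_swap (hL : ∀ p : P, ∃ (V : Type) (_ : Fintype V) (G : SimpleGraph V), IsFaceLink dim p G)
    (a : P → ℚ) :
    ∑ p, a p = ∑ p, (∑ q ∈ Finset.univ.filter (fun q : P => q ≤ p), (1 / 2 : ℚ) ^ (dim p - dim q) * a q)
      * ∑ x ∈ Finset.univ.filter (fun x : P => p ≤ x), (-1 / 2 : ℚ) ^ (dim x - dim p) := by
  have e1 : ∀ p : P, (∑ q ∈ Finset.univ.filter (fun q : P => q ≤ p),
      (1 / 2 : ℚ) ^ (dim p - dim q) * a q)
      * ∑ x ∈ Finset.univ.filter (fun x : P => p ≤ x), (-1 / 2 : ℚ) ^ (dim x - dim p) =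
      ∑ q : P, ∑ x : P, if q ≤ p ∧ p ≤ x then
        a q * ((1 / 2 : ℚ) ^ (dim p - dim q) * (-1 / 2 : ℚ) ^ (dim x - dim p)) else 0 := by
    intro p
    rw [Finset.sum_mul_sum, Finset.sum_filter]
    refine Finset.sum_congr rfl fun q _ => ?_
    rw [Finset.sum_filter]
    by_cases hq : q ≤ p
    · rw [if_pos hq]
      refine Finset.sum_congr rfl fun x _ => ?_
      by_cases hx : p ≤ x
      · rw [if_pos hx, if_pos ⟨hq, hx⟩]
        ring
      · rw [if_neg hx, if_neg fun h => hx h.2]
    · rw [if_neg hq]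
      symm
      refine Finset.sum_eq_zero fun x _ => ?_
      rw [if_neg fun h => hq h.1]
  rw [Finset.sum_congr rfl fun p _ => e1 p, Finset.sum_comm]
  refine Finset.sum_congr rfl fun q _ => ?_
  rw [Finset.sum_comm]
  obtain ⟨V, _, G, hG⟩ := hL q
  have e2 : ∀ x : P, (∑ p : P, if q ≤ p ∧ p ≤ x then
      a q * ((1 / 2 : ℚ) ^ (dim p - dim q) * (-1 / 2 : ℚ) ^ (dim x - dim p)) else 0) =
      if x = q then a q else 0 := by
    intro x
    rw [← Finset.sum_filter, ← Finset.mul_sum]
    by_cases hqx : q ≤ x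
    · rw [interval hG hqx]
      by_cases hx : x = q
      · rw [if_pos hx, hx, Nat.sub_self, pow_zero, mul_one]
      · rw [if_neg hx]
        have h1 := dim_le hG hqx
        have h2 : dim x ≠ dim q := fun h => hx (eq_of_dim hG hqx h)
        have h3 : (1 / 2 + -1 / 2 : ℚ) = 0 := by norm_num
        rw [h3, zero_pow (by omega), mul_zero]
    · rw [if_neg fun h : x = q => hqx (by rw [h])]
      have h1 : Finset.univ.filter (fun p : P => q ≤ p ∧ p ≤ x) = ∅ := by
        rw [Finset.filter_eq_empty_iff]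
        exact fun p _ h => hqx (h.1.trans h.2)
      rw [h1, Finset.sum_empty, mul_zero]
  rw [Finset.sum_congr rfl fun x _ => e2 x]
  simp

open scoped Classical in
/-- The formula: the Euler characteristic is the sum over the faces of the products of the orbifold
Euler characteristic of the face and the Charney-Davis number of its link. -/
theorem formula (hL : ∀ p : P, ∃ (V : Type) (_ : Fintype V) (G : SimpleGraph V), IsFaceLink dim p G)
    (X : P → ℤ) : ((∑ p, (-1 : ℤ) ^ dim p * X p : ℤ) : ℚ) = ∑ p, orb dim X p *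
      ∑ x ∈ Finset.univ.filter (fun x : P => p ≤ x), (-1 / 2 : ℚ) ^ (dim x - dim p) := by
  have h := sum_swap hL (fun q => (-1 : ℚ) ^ dim q * X q)
  push_cast
  rw [h]
  rfl

open scoped Classical in
/-- In odd dimensions the orbifold Euler characteristic vanishes. -/
theorem orb_odd (hL : ∀ p : P, ∃ (V : Type) (_ : Fintype V) (G : SimpleGraph V), IsFaceLink dim p G)
    (X : P → ℤ) (hX : ∀ p, X p = ∑ q ∈ Finset.univ.filter (fun q : P => q ≤ p), (-1) ^ dim q * X q)
    (p : P) (hp : Odd (dim p)) : orb dim X p = 0 := by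
  have hXq : ∀ p, (X p : ℚ) = ∑ q ∈ Finset.univ.filter (fun q : P => q ≤ p), (-1) ^ dim q * (X q : ℚ) := by
    intro p
    exact_mod_cast hX p
  have h1 : orb dim X p = - orb dim X p := by
    conv_rhs => unfold orb
    have e1 : ∀ q ∈ Finset.univ.filter (fun q : P => q ≤ p),
        (1 / 2 : ℚ) ^ (dim p - dim q) * ((-1 : ℚ) ^ dim q * X q) =
        - ∑ r : P, if r ≤ q then (-1 / 2 : ℚ) ^ (dim p - dim q) * ((-1) ^ dim r * (X r : ℚ)) else 0 := by
      intro q hq
      rw [← Finset.sum_filter, ← Finset.mul_sum, ← hXq q]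
      have hq' : q ≤ p := (Finset.mem_filter.1 hq).2
      obtain ⟨V, _, G, hG⟩ := hL q
      have h2 := dim_le hG hq'
      have h3 : (-1 / 2 : ℚ) ^ (dim p - dim q) = (-1) ^ (dim p - dim q) * (1 / 2) ^ (dim p - dim q) := by
        rw [← mul_pow]; norm_num
      have h4 : (-1 : ℚ) ^ dim q = - (-1) ^ (dim p - dim q) := by
        have h5 : (-1 : ℚ) ^ dim q * (-1) ^ (dim p - dim q) = -1 := by
          rw [← pow_add]
          have : dim q + (dim p - dim q) = dim p := by omega
          rw [this, hp.neg_one_pow]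
        have h6 : (-1 : ℚ) ^ (dim p - dim q) * (-1) ^ (dim p - dim q) = 1 := by
          rw [← mul_pow]; norm_num
        calc (-1 : ℚ) ^ dim q = (-1 : ℚ) ^ dim q * ((-1 : ℚ) ^ (dim p - dim q) * (-1) ^ (dim p - dim q)) := by
              rw [h6, mul_one]
          _ = ((-1 : ℚ) ^ dim q * (-1 : ℚ) ^ (dim p - dim q)) * (-1) ^ (dim p - dim q) := by ring
          _ = _ := by rw [h5]; ring
      rw [h3, h4]
      ring
    rw [Finset.sum_congr rfl e1, Finset.sum_neg_distrib, neg_neg, Finset.sum_filter]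
    have e2 : ∀ q : P, (if q ≤ p then ∑ r : P, (if r ≤ q then
        (-1 / 2 : ℚ) ^ (dim p - dim q) * ((-1) ^ dim r * (X r : ℚ)) else 0) else 0) =
        ∑ r : P, if r ≤ q ∧ q ≤ p then
          ((-1) ^ dim r * (X r : ℚ)) * ((1 : ℚ) ^ (dim q - dim r) * (-1 / 2 : ℚ) ^ (dim p - dim q)) else 0 := by
      intro q
      by_cases hq : q ≤ p
      · rw [if_pos hq]
        refine Finset.sum_congr rfl fun r _ => ?_
        by_cases hr : r ≤ q
        · rw [if_pos hr, if_pos ⟨hr, hq⟩]
          ring
        · rw [if_neg hr, if_neg fun h => hr h.1]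
      · rw [if_neg hq]
        symm
        refine Finset.sum_eq_zero fun x _ => ?_
        rw [if_neg fun h => hq h.2]
    rw [Finset.sum_congr rfl fun q _ => e2 q, Finset.sum_comm]
    unfold orb
    rw [Finset.sum_filter]
    refine Finset.sum_congr rfl fun r _ => ?_
    rw [← Finset.sum_filter, ← Finset.mul_sum]
    by_cases hr : r ≤ p
    · obtain ⟨V, _, G, hG⟩ := hL r
      rw [if_pos hr, interval hG hr]
      have : (1 + -1 / 2 : ℚ) = 1 / 2 := by norm_num
      rw [this]
      ring
    · rw [if_neg hr]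
      have h1 : Finset.univ.filter (fun q : P => r ≤ q ∧ q ≤ p) = ∅ := by
        rw [Finset.filter_eq_empty_iff]
        exact fun q _ h => hr (h.1.trans h.2)
      rw [h1, Finset.sum_empty, mul_zero]
  linarith

end

end Pool.Agent.Helper10K1.RT
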